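import Pool.Agent.Work.MP_510402_an.Blocks
import Pool.Agent.Work.MP_510402_an_helper59.EUC

set_option autoImplicit false

namespace Pool.Agent.Results.MP_510402_an.SqrtLogRate

/-- Every `n`-dimensional subspace of `X` is within Banach-Mazur distance `D` of `ℓ_2^n`. -/
def EuclClose (X : Type) [NormedAddCommGroup X] [NormedSpace ℝ X] (n : ℕ) (D : ℝ) : Prop :=
  ∀ E : Submodule ℝ X, Module.finrank ℝ E = n →
    ∃ T : E →ₗ[ℝ] EuclideanSpace ℝ (Fin n), ∀ x : E, ‖x‖ ≤ ‖T x‖ ∧ ‖T x‖ ≤ D * ‖x‖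

/-- The approximation property. -/
def HasAP (Z : Type) [NormedAddCommGroup Z] [NormedSpace ℝ Z] : Prop :=
  ∀ K : Set Z, IsCompact K → ∀ δ : ℝ, 0 < δ →
    ∃ T : Z →L[ℝ] Z, FiniteDimensional ℝ (LinearMap.range (T : Z →ₗ[ℝ] Z)) ∧
      ∀ x ∈ K, ‖T x - x‖ < δ

/-- There is a real Banach space `X` such that every `n`-dimensional subspace (`n ≥ 2`) is within
Banach-Mazur distance `5 * sqrt (log n)` of Euclidean `n`-space, and a closed subspace `Z` of `X`
without the approximation property. -/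
theorem result :
    ∃ (X : Type) (_ : NormedAddCommGroup X) (_ : NormedSpace ℝ X) (_ : CompleteSpace X),
      (∀ n : ℕ, 2 ≤ n → EuclClose X n (5 * Real.sqrt (Real.log n))) ∧
      ∃ Z : Submodule ℝ X, IsClosed (Z : Set X) ∧ ¬ HasAP Z :=
  Pool.HAP.main_rate Pool.HAP.all_Frames Pool.HAP.all_Norm Pool.HAP.stmt_Beta
    (Pool.HAP.stmt_Euc Pool.HAP.stmt_Gram Pool.HAP.stmt_Cara) Pool.HAP.stmt_XComplete
    Pool.HAP.stmt_XInt Pool.HAP.stmt_Emb Pool.HAP.all_APF

end Pool.Agent.Results.MP_510402_an.SqrtLogRate
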